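import Mathlib
import Pool.Prelude.Def_F_c31e40fa
import Pool.Agent.H712R2.MultiCoarse
import Pool.Agent.Lev.J_schottky

set_option autoImplicit false

open Complex Set Topology Filter Metric N62a1eb23

namespace Pool.Agent.W749.Chan

open Pool.Agent.H712R2

/-- A parameter for which the critical point is periodic lies in the Multibrot set. -/
theorem mem_of_P_eq_zero {d : ℕ} (hd : 2 ≤ d) {j : ℕ} (hj : 1 ≤ j) {c : ℂ} (h : P d j c = 0) :
    c ∈ multibrotSet d := by
  rw [mem_multibrot_iff hd]
  intro k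
  by_contra hk
  push Not at hk
  have h1 := tendsto_of_gt hd hk
  have h2 : Tendsto (fun m : ℕ => j * m) atTop atTop := by
    apply tendsto_atTop_mono (fun m => ?_) tendsto_id
    simp only [id]
    nlinarith
  have h3 := h1.comp h2
  have h4 : ∀ m : ℕ, P d (j * m) c = 0 := by
    intro m
    induction m with
    | zero => simp [P_zero]
    | succ m ih =>
      have h5 : P d (j * (m + 1)) c = (fc d c)^[j] (P d (j * m) c) := by
        unfold P
        rw [← Function.iterate_add_apply]
        congr 2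
        ring
      rw [h5, ih]
      exact h
  have h6 : ((fun k => P d k c) ∘ fun m : ℕ => j * m) = fun _ => (0:ℂ) := by
    funext m
    exact h4 m
  rw [h6, ← tendsto_norm_atTop_iff_cobounded] at h3
  simp only [norm_zero] at h3
  exact not_tendsto_const_atTop 0 _ h3

/-- Landau's inequality (with an unspecified absolute constant). -/
theorem landau : ∃ K : ℝ, 0 < K ∧ ∀ (f : ℂ → ℂ) (c : ℂ) (r : ℝ), 0 < r →
    DifferentiableOn ℂ f (ball c r) → (∀ z ∈ ball c r, f z ≠ 0 ∧ f z ≠ -1) → ‖f c‖ ≤ 1 →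
    r * ‖deriv f c‖ ≤ K := by
  obtain ⟨C, hC⟩ := Pool.Agent.Lev.J_schottky.main 1
  refine ⟨4 * max C 1, by positivity, ?_⟩
  intro f c r hr hf hom h1
  have h2 := hC (fun z => - f z) c r hr hf.neg (fun z hz => ⟨by simpa using (hom z hz).1, by
    intro h
    apply (hom z hz).2
    linear_combination -h⟩) (by simpa using h1)
  have h3 : ∀ z ∈ sphere c (r / 4), ‖f z‖ ≤ max C 1 := by
    intro z hz
    have h4 := h2 z (by rw [mem_ball]; rw [mem_sphere] at hz; rw [hz]; linarith)
    rw [norm_neg] at h4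
    exact h4.trans (le_max_left _ _)
  have hd : DiffContOnCl ℂ f (ball c (r / 4)) := by
    apply DifferentiableOn.diffContOnCl_ball (U := ball c r) hf
    exact closedBall_subset_ball (by linarith)
  have h4 := Complex.norm_deriv_le_of_forall_mem_sphere_norm_le (by linarith : 0 < r / 4) hd h3
  rw [le_div_iff₀ (by linarith)] at h4
  linarith

/-- The functions `P_{j+2}(z) / z - 1`. -/
noncomputable def q (d : ℕ) : ℕ → ℂ → ℂ
  | 0 => fun z => z ^ (d - 1)
  | j + 1 => fun z => z ^ (d - 1) * (1 + q d j z) ^ d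

/-- The same functions on the real line. -/
noncomputable def F (d : ℕ) : ℕ → ℝ → ℝ
  | 0 => fun x => x ^ (d - 1)
  | j + 1 => fun x => x ^ (d - 1) * (1 + F d j x) ^ d

theorem P_eq_q {d : ℕ} (hd : 2 ≤ d) (j : ℕ) (z : ℂ) : P d (j + 2) z = z * (1 + q d j z) := by
  induction j with
  | zero =>
    rw [P_succ, P_one hd]
    simp only [q]
    obtain ⟨e, rfl⟩ := Nat.exists_eq_add_of_le' (show 1 ≤ d by omega)
    simp only [Nat.add_sub_cancel]
    ring
  | succ j ih =>
    rw [show j + 1 + 2 = (j + 2) + 1 by ring, P_succ, ih]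
    simp only [q]
    obtain ⟨e, rfl⟩ := Nat.exists_eq_add_of_le' (show 1 ≤ d by omega)
    simp only [Nat.add_sub_cancel]
    rw [mul_pow, pow_succ z e]
    ring

theorem q_cast (d j : ℕ) (x : ℝ) : q d j (x : ℂ) = (F d j x : ℂ) := by
  induction j with
  | zero => simp [q, F]
  | succ j ih => simp only [q, F, ih]; push_cast; ring

theorem F_pos {d : ℕ} (j : ℕ) {x : ℝ} (hx : 0 < x) : 0 < F d j x := by
  induction j with
  | zero => simp only [F]; positivity
  | succ j ih => simp only [F]; positivity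

theorem differentiable_q (d j : ℕ) : Differentiable ℂ (q d j) := by
  induction j with
  | zero => unfold q; fun_prop
  | succ j ih => unfold q; fun_prop

theorem continuous_F (d j : ℕ) : Continuous (F d j) := by
  induction j with
  | zero => unfold F; fun_prop
  | succ j ih => unfold F; fun_prop

/-- On a disc that misses the Multibrot set, `q` omits `0` and `-1`. -/
theorem q_omits {d : ℕ} (hd : 2 ≤ d) (j : ℕ) {c : ℂ} {r : ℝ}
    (h : ∀ z ∈ ball c r, z ∉ multibrotSet d) : ∀ z ∈ ball c r, q d j z ≠ 0 ∧ q d j z ≠ -1 := by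
  intro z hz
  have h0 : ∀ i, 1 ≤ i → P d i z ≠ 0 := fun i hi h1 => h z hz (mem_of_P_eq_zero hd hi h1)
  have hz0 : z ≠ 0 := by
    have := h0 1 le_rfl
    rwa [P_one hd] at this
  have h1 : ∀ i, 1 + q d i z ≠ 0 := by
    intro i h2
    apply h0 (i + 2) (by omega)
    rw [P_eq_q hd, h2, mul_zero]
  constructor
  · cases j with
    | zero => simp only [q]; exact pow_ne_zero _ hz0
    | succ j => simp only [q]; exact mul_ne_zero (pow_ne_zero _ hz0) (pow_ne_zero _ (h1 j))
  · intro h2
    apply h1 j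
    rw [h2]; ring

/-- Lower bound for the derivative on the positive real axis. -/
theorem deriv_q {d : ℕ} (hd : 2 ≤ d) (j : ℕ) {x : ℝ} (hx : 0 < x) :
    ∃ G : ℝ, HasDerivAt (q d j) (G : ℂ) (x : ℂ) ∧
      F d j x * (((d:ℝ) - 1) / x * ∏ i ∈ Finset.range j, (d * F d i x / (1 + F d i x))) ≤ G := by
  have hd1 : ((d - 1 : ℕ) : ℝ) = (d : ℝ) - 1 := by
    rw [Nat.cast_sub (by omega)]; simp
  have hd2 : (2:ℝ) ≤ d := by exact_mod_cast hd
  induction j with
  | zero =>
    refine ⟨(d - 1 : ℕ) * x ^ (d - 1 - 1), ?_, ?_⟩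
    · simp only [q]
      have := hasDerivAt_pow (d - 1) (x : ℂ)
      push_cast
      exact this
    · simp only [F, Finset.range_zero, Finset.prod_empty, mul_one]
      rw [← hd1]
      apply le_of_eq
      have h1 : x ^ (d - 1) = x ^ (d - 1 - 1) * x := by
        rw [← pow_succ]; congr 1; omega
      rw [h1]
      field_simp
  | succ j ih =>
    obtain ⟨G, hG, hle⟩ := ih
    have hF := F_pos (d := d) j hx
    refine ⟨(d - 1 : ℕ) * x ^ (d - 1 - 1) * (1 + F d j x) ^ d +
      x ^ (d - 1) * (d * (1 + F d j x) ^ (d - 1) * G), ?_, ?_⟩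
    · simp only [q]
      have h1 := hasDerivAt_pow (d - 1) (x : ℂ)
      have h2 := ((hG.const_add 1).pow d)
      have h3 := h1.mul h2
      refine HasDerivAt.congr_deriv (f := fun z => z ^ (d - 1) * (1 + q d j z) ^ d) h3 ?_
      simp only [Pi.pow_apply, q_cast]
      push_cast
      ring
    · have hA : 0 ≤ (d - 1 : ℕ) * x ^ (d - 1 - 1) * (1 + F d j x) ^ d := by positivity
      set R := ((d:ℝ) - 1) / x * ∏ i ∈ Finset.range j, (d * F d i x / (1 + F d i x)) with hR
      have h1 : F d (j + 1) x * (((d:ℝ) - 1) / x *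
          ∏ i ∈ Finset.range (j + 1), (d * F d i x / (1 + F d i x))) =
          x ^ (d - 1) * (d * (1 + F d j x) ^ (d - 1) * (F d j x * R)) := by
        rw [Finset.prod_range_succ, hR]
        simp only [F]
        have h2 : (1 + F d j x) ^ d = (1 + F d j x) ^ (d - 1) * (1 + F d j x) := by
          rw [← pow_succ]; congr 1; omega
        rw [h2]
        have h3 : (1 + F d j x) ≠ 0 := by positivity
        field_simp
      rw [h1]
      have h4 : x ^ (d - 1) * (d * (1 + F d j x) ^ (d - 1) * (F d j x * R)) ≤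
          x ^ (d - 1) * (d * (1 + F d j x) ^ (d - 1) * G) := by
        gcongr
      linarith

/-- Near a real parameter `x` with `F_j(x) = 1` there are points of the Multibrot set, at distance
controlled by the derivative. -/
theorem exists_near {K : ℝ} (hK : 0 < K) (hL : ∀ (f : ℂ → ℂ) (c : ℂ) (r : ℝ), 0 < r →
    DifferentiableOn ℂ f (ball c r) → (∀ z ∈ ball c r, f z ≠ 0 ∧ f z ≠ -1) → ‖f c‖ ≤ 1 →
    r * ‖deriv f c‖ ≤ K) {d : ℕ} (hd : 2 ≤ d) {j : ℕ} {x : ℝ} (hx : 0 < x) (h1 : F d j x = 1)
    {D : ℝ} (hD : 0 < D)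
    (hD' : D ≤ ((d:ℝ) - 1) / x * ∏ i ∈ Finset.range j, (d * F d i x / (1 + F d i x))) :
    ∃ z ∈ multibrotSet d, dist z (x : ℂ) < 2 * K / D := by
  by_contra hcon
  push Not at hcon
  have h2 : ∀ z ∈ ball (x : ℂ) (2 * K / D), z ∉ multibrotSet d := by
    intro z hz hz2
    have := hcon z hz2
    rw [mem_ball] at hz
    linarith
  obtain ⟨G, hG, hle⟩ := deriv_q hd j hx
  rw [h1, one_mul] at hle
  have h3 := hL (q d j) x (2 * K / D) (by positivity) (differentiable_q d j).differentiableOn
    (q_omits hd j h2) (by rw [q_cast, h1]; simp)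
  rw [hG.deriv, Complex.norm_real, Real.norm_eq_abs] at h3
  have h4 : D ≤ |G| := (hD'.trans hle).trans (le_abs_self _)
  have h5 : 2 * K / D * D ≤ K := le_trans (mul_le_mul_of_nonneg_left h4 (by positivity)) h3
  rw [div_mul_cancel₀ _ hD.ne'] at h5
  linarith

theorem conj_mem {d : ℕ} (hd : 2 ≤ d) {z : ℂ} (hz : z ∈ multibrotSet d) :
    (starRingEnd ℂ) z ∈ multibrotSet d := by
  rw [mem_multibrot_iff hd] at hz ⊢
  have h : ∀ k, P d k ((starRingEnd ℂ) z) = (starRingEnd ℂ) (P d k z) := by
    intro k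
    induction k with
    | zero => simp [P_zero]
    | succ k ih => rw [P_succ, P_succ, ih]; simp
  intro k
  rw [h, Complex.norm_conj]
  exact hz k

/-- A connected subset of the Multibrot set that joins `z` to its conjugate has to go around the
cusp. -/
theorem diam_lower {d : ℕ} (hd : 2 ≤ d) {z : ℂ} {E : Set ℂ} (hE : E ⊆ multibrotSet d)
    (hc : IsConnected E) (h1 : z ∈ E) (h2 : (starRingEnd ℂ) z ∈ E) :
    z.re - rr d ≤ diam E := by
  have h3 : IsPreconnected (Complex.im '' E) :=
    hc.isPreconnected.image _ Complex.continuous_im.continuousOn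
  have h4 : (0:ℝ) ∈ Complex.im '' E := by
    have h5 := h3.ordConnected
    have ha : z.im ∈ Complex.im '' E := ⟨z, h1, rfl⟩
    have hb : -z.im ∈ Complex.im '' E := ⟨_, h2, by simp⟩
    rcases le_total 0 z.im with h | h
    · exact h5.out hb ha ⟨by linarith, h⟩
    · exact h5.out ha hb ⟨h, by linarith⟩
  obtain ⟨w, hw, hw0⟩ := h4
  have h5 : w = (w.re : ℂ) := by
    apply Complex.ext <;> simp [hw0]
  have h6 : w.re ≤ rr d := by
    by_contra h
    push Not at h
    exact real_escape hd h (h5 ▸ hE hw)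
  have hb : Bornology.IsBounded E := by
    apply (isCompact_multibrot hd).isBounded.subset hE
  have h7 := dist_le_diam_of_mem hb h1 hw
  have h8 : z.re - w.re ≤ dist z w := by
    rw [dist_eq_norm]
    have := Complex.abs_re_le_norm (z - w)
    rw [Complex.sub_re] at this
    exact (le_abs_self _).trans this
  linarith

end Pool.Agent.W749.Chan
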