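import Mathlib
import Pool.Agent.W749.ChanA

set_option autoImplicit false

open Set Topology Filter Metric

namespace Pool.Agent.W749.Chan

/-- The iterated logarithm tends to infinity. -/
theorem tendsto_L (i : ℕ) : Tendsto (fun n : ℕ => Real.log^[i] (n:ℝ)) atTop atTop := by
  induction i with
  | zero => simpa using tendsto_natCast_atTop_atTop
  | succ i ih =>
    simp only [Function.iterate_succ_apply']
    exact Real.tendsto_log_atTop.comp ih

/-- Asymptotic lower bound. -/
def AGE (u v : ℕ → ℝ) : Prop := ∀ ε > 0, ∀ᶠ n in atTop, (1 - ε) * v n ≤ u n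

theorem AGE.tendsto {u v : ℕ → ℝ} (h : AGE u v) (hv : Tendsto v atTop atTop) :
    Tendsto u atTop atTop := by
  have h1 := h (1/2) (by norm_num)
  refine tendsto_atTop_mono' _ h1 ?_
  have : Tendsto (fun n => (1/2:ℝ) * v n) atTop atTop := hv.const_mul_atTop (by norm_num)
  convert this using 2
  norm_num

theorem log_two_mul_small {δ : ℝ} (hδ : 0 < δ) : ∀ᶠ y : ℝ in atTop, Real.log (2 * y) ≤ δ * y := by
  have h1 : (fun y : ℝ => Real.log y) =o[atTop] (fun y => y) := Real.isLittleO_log_id_atTop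
  have h2 := h1.bound (c := δ / 2) (by positivity)
  have h3 : ∀ᶠ y : ℝ in atTop, Real.log 2 ≤ δ / 2 * y := by
    have : Tendsto (fun y : ℝ => δ / 2 * y) atTop atTop := tendsto_id.const_mul_atTop (by positivity)
    exact this.eventually_ge_atTop _
  filter_upwards [h2, h3, eventually_gt_atTop 0] with y h4 h5 h6
  rw [Real.norm_eq_abs, Real.norm_eq_abs, abs_of_pos h6] at h4
  rw [Real.log_mul (by norm_num) h6.ne']
  have := le_abs_self (Real.log y)
  linarith

theorem AGE.log {u v w : ℕ → ℝ} (h : AGE u v) (hv : Tendsto v atTop atTop)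
    (hw : ∀ᶠ n in atTop, Real.log (u n) - Real.log (2 * Real.log (u n)) ≤ w n) :
    AGE w (fun n => Real.log (v n)) := by
  intro ε hε
  obtain ⟨δ, hδ, hδ1, hδε⟩ : ∃ δ : ℝ, 0 < δ ∧ δ ≤ 1 / 2 ∧ 2 * δ ≤ ε :=
    ⟨min ε 1 / 2, by positivity, by
      have := min_le_right ε 1
      linarith, by
      have := min_le_left ε 1
      linarith⟩
  have hu := h.tendsto hv
  have hlu := Real.tendsto_log_atTop.comp hu
  have hlv := Real.tendsto_log_atTop.comp hv
  have h1 := hlu.eventually (log_two_mul_small hδ)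
  have h2 : ∀ᶠ n in atTop, Real.log 2 ≤ δ * Real.log (v n) := by
    have : Tendsto (fun n => δ * Real.log (v n)) atTop atTop := hlv.const_mul_atTop hδ
    exact this.eventually_ge_atTop _
  filter_upwards [h1, h2, h (1/2) (by norm_num), hv.eventually_gt_atTop 0, hw,
    hlv.eventually_ge_atTop 0] with n h3 h4 h5 h6 h7 h8
  simp only [Function.comp] at h3 h8
  have h9 : Real.log (v n) - Real.log 2 ≤ Real.log (u n) := by
    rw [← Real.log_div h6.ne' (by norm_num)]
    apply Real.log_le_log (by positivity)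
    linarith
  have h10 : (1 - δ) * Real.log (v n) ≤ Real.log (u n) := by nlinarith
  have h11 : (1 - δ) * ((1 - δ) * Real.log (v n)) ≤ (1 - δ) * Real.log (u n) :=
    mul_le_mul_of_nonneg_left h10 (by linarith)
  nlinarith [mul_nonneg (mul_self_nonneg δ) h8, mul_nonneg (show 0 ≤ ε - 2 * δ by linarith) h8]

/-! ### the recursion -/

variable {n : ℕ} {x : ℝ}

theorem F_succ (n j : ℕ) (x : ℝ) : F n (j + 1) x = F n 0 x * (1 + F n j x) ^ n := rfl

theorem F_mono (hx : 0 < x) (j : ℕ) : F n j x ≤ F n (j + 1) x := by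
  induction j with
  | zero =>
    rw [F_succ]
    have h := F_pos (d := n) 0 hx
    have h1 : 1 ≤ (1 + F n 0 x) ^ n := one_le_pow₀ (by linarith)
    nlinarith
  | succ j ih =>
    rw [F_succ, F_succ n (j + 1)]
    have h := F_pos (d := n) 0 hx
    have h' := F_pos (d := n) j hx
    apply mul_le_mul_of_nonneg_left _ h.le
    exact pow_le_pow_left₀ (by linarith) (by linarith) n

theorem F_mono' (hx : 0 < x) {i j : ℕ} (hij : i ≤ j) : F n i x ≤ F n j x := by
  induction j, hij using Nat.le_induction with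
  | base => exact le_rfl
  | succ j _ ih => exact ih.trans (F_mono hx j)

theorem log_F_succ (hx : 0 < x) (j : ℕ) :
    Real.log (F n (j + 1) x) = Real.log (F n 0 x) + n * Real.log (1 + F n j x) := by
  rw [F_succ, Real.log_mul (F_pos 0 hx).ne' (by have := F_pos (d := n) j hx; positivity),
    Real.log_pow]

theorem rec_lower (hn : 2 ≤ n) (hx : 0 < x) {k i : ℕ} (hi : i < k) (hk : F n k x = 1)
    (hg : Real.exp 1 ≤ n * F n (i + 1) x) :
    Real.log (n * F n (i + 1) x) - Real.log (2 * Real.log (n * F n (i + 1) x)) ≤ n * F n i x := by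
  have hn0 : (0:ℝ) < n := by exact_mod_cast (show 0 < n by omega)
  have hF0 := F_pos (d := n) 0 hx
  have hFi := F_pos (d := n) i hx
  have hFi1 := F_pos (d := n) (i + 1) hx
  have h1 : Real.log (n * F n (i + 1) x) - Real.log (n * F n 0 x) ≤ n * F n i x := by
    rw [Real.log_mul hn0.ne' hFi1.ne', Real.log_mul hn0.ne' hF0.ne', log_F_succ hx]
    have := Real.log_le_sub_one_of_pos (show 0 < 1 + F n i x by linarith)
    have h2 : n * Real.log (1 + F n i x) ≤ n * F n i x :=
      mul_le_mul_of_nonneg_left (by linarith) hn0.le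
    linarith
  have hF0le : F n 0 x ≤ 1 := by rw [← hk]; exact F_mono' hx (by omega)
  have h2 : Real.log (n * F n 0 x) + n * F n 0 x / 2 ≤ Real.log (n * F n (i + 1) x) := by
    have h3 : Real.log (n * F n 1 x) ≤ Real.log (n * F n (i + 1) x) := by
      apply Real.log_le_log (mul_pos hn0 (F_pos 1 hx))
      exact mul_le_mul_of_nonneg_left (F_mono' hx (by omega)) hn0.le
    refine le_trans ?_ h3
    have e1 : Real.log (F n 1 x) = Real.log (F n 0 x) + n * Real.log (1 + F n 0 x) :=
      log_F_succ hx 0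
    rw [Real.log_mul hn0.ne' (F_pos 1 hx).ne', Real.log_mul hn0.ne' hF0.ne', e1]
    have h4 := Real.one_sub_inv_le_log_of_pos (show 0 < 1 + F n 0 x by linarith)
    have h5 : F n 0 x / 2 ≤ 1 - (1 + F n 0 x)⁻¹ := by
      rw [div_le_iff₀ (by norm_num), ← sub_nonneg]
      have : (1 - (1 + F n 0 x)⁻¹) * 2 - F n 0 x =
          F n 0 x * (1 - F n 0 x) / (1 + F n 0 x) := by field_simp; ring
      rw [this]
      apply div_nonneg (mul_nonneg hF0.le (by linarith)) (by linarith)
    have h6 : n * (F n 0 x / 2) ≤ n * Real.log (1 + F n 0 x) :=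
      mul_le_mul_of_nonneg_left (h5.trans h4) hn0.le
    linarith
  have h3 : 1 ≤ Real.log (n * F n (i + 1) x) := by
    rw [← Real.log_exp 1]
    exact Real.log_le_log (Real.exp_pos 1) hg
  have h4 : Real.log (n * F n 0 x) ≤ Real.log (2 * Real.log (n * F n (i + 1) x)) := by
    apply Real.log_le_log (mul_pos hn0 hF0)
    by_cases h5 : n * F n 0 x ≤ 1
    · linarith
    · push Not at h5
      have := Real.log_pos h5
      linarith
  linarith

/-- Choice of the parameter with `F_k = 1`. -/
theorem exists_x (hn : 2 ≤ n) (k : ℕ) : ∃ x : ℝ, 0 < x ∧ x ≤ 1 ∧ F n k x = 1 := by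
  have h0 : F n k 0 = 0 := by
    cases k with
    | zero => simp only [F]; exact zero_pow (by omega)
    | succ k => simp only [F]; rw [zero_pow (by omega), zero_mul]
  have h1 : 1 ≤ F n k 1 := by
    have h2 : F n 0 1 = 1 := by simp [F]
    have h3 : F n 0 1 ≤ F n k 1 := F_mono' one_pos (Nat.zero_le k)
    linarith
  obtain ⟨x, hx, hx1⟩ := intermediate_value_Icc (zero_le_one) (continuous_F n k).continuousOn
    (show (1:ℝ) ∈ Icc (F n k 0) (F n k 1) from ⟨by rw [h0]; norm_num, h1⟩)
  refine ⟨x, ?_, hx.2, hx1⟩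
  rcases hx.1.eq_or_lt with h | h
  · rw [← h, h0] at hx1
    norm_num at hx1
  · exact h

/-- The asymptotics of the sequence. -/
theorem asymp {X : ℕ → ℝ} {k : ℕ} (hX0 : ∀ n, 2 ≤ n → 0 < X n)
    (hX : ∀ n, 2 ≤ n → F n k (X n) = 1) (i : ℕ) (hi : i ≤ k) :
    AGE (fun n => n * F n (k - i) (X n)) (fun n => Real.log^[i] (n:ℝ)) := by
  induction i with
  | zero =>
    intro ε hε
    filter_upwards [eventually_ge_atTop 2] with n hn
    simp only [Nat.sub_zero, hX n hn, mul_one, Function.iterate_zero, id]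
    have : (0:ℝ) ≤ n := by positivity
    nlinarith
  | succ i ih =>
    have h1 := ih (by omega)
    simp only [Function.iterate_succ_apply']
    apply h1.log (tendsto_L i)
    have h2 := (h1.tendsto (tendsto_L i)).eventually_ge_atTop (Real.exp 1)
    filter_upwards [h2, eventually_ge_atTop 2] with n h3 h4
    have h5 : k - i = (k - (i + 1)) + 1 := by omega
    rw [h5] at h3 ⊢
    exact rec_lower h4 (hX0 n h4) (by omega) (hX n h4) h3

end Pool.Agent.W749.Chan
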