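import Mathlib
import Pool.Agent.W749.ChanB

set_option autoImplicit false

open Set Topology Filter Metric N62a1eb23

namespace Pool.Agent.W749.Chan

open Pool.Agent.H712R2

theorem F_small {X : ℕ → ℝ} {k : ℕ} (hX0 : ∀ n, 2 ≤ n → 0 < X n)
    (hX : ∀ n, 2 ≤ n → F n k (X n) = 1) {δ : ℝ} (hδ : 0 < δ) :
    ∀ᶠ n : ℕ in atTop, ∀ i < k, F n i (X n) ≤ δ := by
  have h1 := (asymp hX0 hX k le_rfl).tendsto (tendsto_L k)
  have h2 := h1.eventually_ge_atTop 1
  have h3 : ∀ᶠ n : ℕ in atTop, (n:ℝ) < (1 + δ) ^ n := by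
    have h4 : Tendsto (fun n : ℕ => (n:ℝ) ^ 1 / (1 + δ) ^ n) atTop (𝓝 0) :=
      tendsto_pow_const_div_const_pow_of_one_lt 1 (by linarith)
    filter_upwards [h4.eventually (gt_mem_nhds one_pos)] with n hn
    rw [div_lt_one (by positivity), pow_one] at hn
    exact hn
  filter_upwards [h2, h3, eventually_ge_atTop 2] with n h4 h5 h6 i hi
  have hx := hX0 n h6
  have hF0 := F_pos (d := n) 0 hx
  have hFi := F_pos (d := n) i hx
  have hn0 : (0:ℝ) < n := by exact_mod_cast (show 0 < n by omega)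
  rw [Nat.sub_self] at h4
  have h7 : F n (i + 1) (X n) ≤ 1 := by rw [← hX n h6]; exact F_mono' hx (by omega)
  rw [F_succ] at h7
  have h8 : (1 + F n i (X n)) ^ n ≤ n := by
    have h9 : 0 < (1 + F n i (X n)) ^ n := by positivity
    nlinarith
  by_contra hcon
  push Not at hcon
  have h9 : (1 + δ) ^ n ≤ (1 + F n i (X n)) ^ n :=
    pow_le_pow_left₀ (by linarith) (by linarith) n
  linarith

theorem prod_L_tendsto (k : ℕ) :
    ∀ᶠ n : ℕ in atTop, 1 ≤ ∏ i ∈ Finset.range k, Real.log^[i + 1] (n:ℝ) := by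
  have h : ∀ᶠ n : ℕ in atTop, ∀ i ∈ Finset.range k, 1 ≤ Real.log^[i + 1] (n:ℝ) := by
    rw [Filter.eventually_all_finset]
    intro i _
    exact (tendsto_L (i + 1)).eventually_ge_atTop 1
  filter_upwards [h] with n hn
  calc (1:ℝ) = ∏ i ∈ Finset.range k, (1:ℝ) := by simp
    _ ≤ _ := Finset.prod_le_prod (fun _ _ => zero_le_one) hn

/-- The product of the derivatives along the orbit. -/
theorem prod_lower {X : ℕ → ℝ} {k : ℕ} (hX0 : ∀ n, 2 ≤ n → 0 < X n)
    (hX : ∀ n, 2 ≤ n → F n k (X n) = 1) :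
    ∀ᶠ n : ℕ in atTop, 1 / 2 * ∏ i ∈ Finset.range k, Real.log^[i + 1] (n:ℝ) ≤
      ∏ i ∈ Finset.range k, (n * F n i (X n) / (1 + F n i (X n))) := by
  set ε : ℝ := 1 / (4 * (k + 1)) with hε
  have hε0 : 0 < ε := by positivity
  have hε1 : ε ≤ 1 / 4 := by
    rw [hε]
    apply div_le_div_of_nonneg_left (by norm_num) (by norm_num)
    have : (0:ℝ) ≤ k := by positivity
    linarith
  have h1 : ∀ᶠ n : ℕ in atTop, ∀ i ∈ Finset.range k,
      (1 - ε) * Real.log^[k - i] (n:ℝ) ≤ n * F n i (X n) ∧ 0 ≤ Real.log^[k - i] (n:ℝ) := by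
    rw [Filter.eventually_all_finset]
    intro i hi
    rw [Finset.mem_range] at hi
    have h2 := asymp hX0 hX (k - i) (by omega)
    rw [show k - (k - i) = i by omega] at h2
    exact (h2 ε hε0).and ((tendsto_L (k - i)).eventually_ge_atTop 0)
  filter_upwards [h1, F_small hX0 hX hε0, eventually_ge_atTop 2] with n h2 h3 h4
  have hx := hX0 n h4
  have h5 : ∀ i ∈ Finset.range k, (1 - 2 * ε) * Real.log^[k - i] (n:ℝ) ≤
      n * F n i (X n) / (1 + F n i (X n)) := by
    intro i hi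
    obtain ⟨h6, h7⟩ := h2 i hi
    have h8 := h3 i (Finset.mem_range.1 hi)
    have h9 := F_pos (d := n) i hx
    rw [le_div_iff₀ (by linarith)]
    refine le_trans ?_ h6
    have h10 : (1 - 2 * ε) * (1 + F n i (X n)) ≤ 1 - ε := by nlinarith
    nlinarith
  have h6 : ∏ i ∈ Finset.range k, ((1 - 2 * ε) * Real.log^[k - i] (n:ℝ)) ≤
      ∏ i ∈ Finset.range k, (n * F n i (X n) / (1 + F n i (X n))) := by
    apply Finset.prod_le_prod _ h5
    intro i hi
    exact mul_nonneg (by linarith) (h2 i hi).2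
  refine le_trans ?_ h6
  rw [Finset.prod_mul_distrib, Finset.prod_const, Finset.card_range]
  have h7 : ∏ i ∈ Finset.range k, Real.log^[k - i] (n:ℝ) =
      ∏ i ∈ Finset.range k, Real.log^[i + 1] (n:ℝ) := by
    rw [← Finset.prod_range_reflect (fun i => Real.log^[i + 1] (n:ℝ)) k]
    apply Finset.prod_congr rfl
    intro i hi
    rw [Finset.mem_range] at hi
    congr 2
    omega
  rw [← h7]
  apply mul_le_mul_of_nonneg_right
  · have h8 := one_add_mul_le_pow (a := -(2 * ε)) (by linarith) k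
    have h9 : (1 / 2 : ℝ) ≤ 1 + k * -(2 * ε) := by
      rw [hε]
      have : (0:ℝ) ≤ k := by positivity
      have h10 : (k:ℝ) * (2 * (1 / (4 * (k + 1)))) ≤ 1 / 2 := by
        rw [← mul_assoc, mul_one_div, div_le_div_iff₀ (by positivity) (by norm_num)]
        nlinarith
      linarith
    calc (1 / 2 : ℝ) ≤ 1 + k * -(2 * ε) := h9
      _ ≤ (1 + -(2 * ε)) ^ k := h8
      _ = _ := by ring
  · apply Finset.prod_nonneg
    intro i hi
    exact (h2 i hi).2

/-- The position of the parameter relative to the cusp. -/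
theorem gap_lower {X : ℕ → ℝ} {k : ℕ} (hX0 : ∀ n, 2 ≤ n → 0 < X n)
    (hX : ∀ n, 2 ≤ n → F n k (X n) = 1) :
    ∀ᶠ n : ℕ in atTop, Real.log^[k + 1] (n:ℝ) - 2 ≤ n * (X n - rr n) := by
  have h1 := asymp hX0 hX k le_rfl (1 / 2) (by norm_num)
  have h2 := (tendsto_L (k + 1)).eventually_ge_atTop 1
  have h3 : ∀ᶠ n : ℕ in atTop, (n:ℝ) * (Real.log n / ((n:ℝ) - 1)) ^ 2 ≤ 1 := by
    have h4 : Tendsto (fun n : ℕ => Real.log (n:ℝ) ^ 2 / (1 * (n:ℝ) + 0)) atTop (𝓝 0) :=
      (Real.tendsto_pow_log_div_mul_add_atTop 1 0 2 one_ne_zero).comp tendsto_natCast_atTop_atTop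
    filter_upwards [h4.eventually (gt_mem_nhds (show (0:ℝ) < 1 / 4 by norm_num)),
      eventually_ge_atTop 2] with n h5 h6
    have hn2 : (2:ℝ) ≤ n := by exact_mod_cast h6
    rw [one_mul, add_zero, div_lt_iff₀ (by linarith)] at h5
    rw [div_pow, ← mul_div_assoc, div_le_one (by nlinarith)]
    nlinarith
  filter_upwards [h1, h2, h3, eventually_ge_atTop 2, (tendsto_L k).eventually_gt_atTop 0] with
    n h4 h5 h6 h7 h8
  have hx := hX0 n h7
  have hn2 : (2:ℝ) ≤ n := by exact_mod_cast h7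
  have hF0 := F_pos (d := n) 0 hx
  rw [Nat.sub_self] at h4
  -- lower bound for `X n`
  have h9 : Real.log (F n 0 (X n)) = ((n:ℝ) - 1) * Real.log (X n) := by
    simp only [F]
    rw [Real.log_pow, Nat.cast_sub (by omega)]
    simp
  have h10 : Real.log^[k + 1] (n:ℝ) - Real.log 2 ≤ Real.log n + Real.log (F n 0 (X n)) := by
    rw [← Real.log_mul (by linarith) hF0.ne', Function.iterate_succ_apply',
      ← Real.log_div h8.ne' (by norm_num)]
    apply Real.log_le_log (by positivity)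
    linarith
  have h11 := Real.log_le_sub_one_of_pos hx
  have h12 : Real.log^[k + 1] (n:ℝ) - Real.log 2 - Real.log n ≤ ((n:ℝ) - 1) * (X n - 1) := by
    have : ((n:ℝ) - 1) * Real.log (X n) ≤ ((n:ℝ) - 1) * (X n - 1) :=
      mul_le_mul_of_nonneg_left h11 (by linarith)
    linarith
  -- upper bound for the cusp
  set a := Real.log n / ((n:ℝ) - 1) with ha
  have ha0 : 0 ≤ a := div_nonneg (Real.log_nonneg (by linarith)) (by linarith)
  have h13 : rr n ≤ 1 - a + a ^ 2 := by
    have h14 : rr n ≤ sr n := by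
      rw [rr_eq h7]
      have h15 := sr_pos n
      have h16 : 0 ≤ 1 / (n:ℝ) := by positivity
      nlinarith
    have h15 : sr n ≤ 1 - a + a ^ 2 := by
      have h16 := Real.add_one_le_exp a
      have h17 : sr n * Real.exp a = 1 := by
        unfold sr
        rw [← Real.exp_add, ha]
        simp
      have h18 : sr n * (1 + a) ≤ 1 := by
        rw [← h17]
        exact mul_le_mul_of_nonneg_left (by linarith) (sr_pos n).le
      have h19 : 1 ≤ (1 - a + a ^ 2) * (1 + a) := by nlinarith [pow_nonneg ha0 3]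
      exact le_of_mul_le_mul_right (h18.trans h19) (by linarith)
    exact h14.trans h15
  have h14 : ((n:ℝ) - 1) * a = Real.log n := by
    have : (n:ℝ) - 1 ≠ 0 := by linarith
    rw [ha]; field_simp
  have hlog2 : Real.log 2 ≤ 1 := by
    have := Real.log_two_lt_d9
    linarith
  -- combine
  have h15 : Real.log^[k + 1] (n:ℝ) - 1 ≤ ((n:ℝ) - 1) * (X n - 1 + a) := by
    rw [mul_add, h14]
    linarith
  have h16 : Real.log^[k + 1] (n:ℝ) - 1 ≤ n * (X n - 1 + a) := by
    have h17 : 0 ≤ X n - 1 + a := by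
      by_contra hcon
      push Not at hcon
      nlinarith
    linarith
  have h17 : (n:ℝ) * rr n ≤ n * (1 - a + a ^ 2) := mul_le_mul_of_nonneg_left h13 (by linarith)
  nlinarith

/-- The channels of the Multibrot sets. -/
theorem main : ∃ C : ℝ, 0 < C ∧ ∀ k : ℕ, ∀ᶠ n : ℕ in atTop,
    ∃ x ∈ multibrotSet n, ∃ y ∈ multibrotSet n,
      dist x y ≤ C / (n * ∏ i ∈ Finset.range k, Real.log^[i + 1] (n:ℝ)) ∧
      ∀ E ⊆ multibrotSet n, IsConnected E → x ∈ E → y ∈ E →
        (Real.log^[k + 1] (n:ℝ) - C) / n ≤ diam E := by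
  obtain ⟨K, hK, hL⟩ := landau
  refine ⟨16 * K + 2, by positivity, fun k => ?_⟩
  choose! X hX0 hX1 hX using fun (n : ℕ) (hn : 2 ≤ n) => exists_x hn k
  filter_upwards [prod_lower hX0 hX, gap_lower hX0 hX, prod_L_tendsto k, eventually_ge_atTop 2]
    with n h1 h2 h3 h4
  have hn2 : (2:ℝ) ≤ n := by exact_mod_cast h4
  set Pr := ∏ i ∈ Finset.range k, Real.log^[i + 1] (n:ℝ) with hPr
  have hx := hX0 n h4
  have hD : (n / 4 * Pr : ℝ) ≤ ((n:ℝ) - 1) / X n *
      ∏ i ∈ Finset.range k, (n * F n i (X n) / (1 + F n i (X n))) := by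
    have h5 : (n:ℝ) / 2 ≤ ((n:ℝ) - 1) / X n := by
      rw [le_div_iff₀ hx]
      have := hX1 n h4
      nlinarith
    calc (n / 4 * Pr : ℝ) = n / 2 * (1 / 2 * Pr) := by ring
      _ ≤ _ := mul_le_mul h5 h1 (by positivity) (by
        apply div_nonneg (by linarith) hx.le)
  obtain ⟨z, hz, hzd⟩ := exists_near hK hL h4 hx (hX n h4) (D := n / 4 * Pr) (by positivity) hD
  have hzd2 : dist z (X n) < 8 * K / (n * Pr) := by
    have : 2 * K / (n / 4 * Pr) = 8 * K / (n * Pr) := by field_simp; ring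
    rwa [this] at hzd
  have hzd3 : n * dist z (X n) ≤ 8 * K := by
    rw [lt_div_iff₀ (by positivity)] at hzd2
    have h5 : n * dist z (X n) ≤ n * dist z (X n) * Pr :=
      le_mul_of_one_le_right (by positivity) h3
    nlinarith
  refine ⟨z, hz, _, conj_mem h4 hz, ?_, ?_⟩
  · have h5 : dist z ((starRingEnd ℂ) z) ≤ 2 * dist z (X n) := by
      have e : z - (starRingEnd ℂ) z = (2 * z.im : ℝ) * Complex.I := by
        apply Complex.ext <;> simp; ring
      rw [dist_eq_norm, dist_eq_norm, e, norm_mul, Complex.norm_real, Complex.norm_I, mul_one,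
        Real.norm_eq_abs, abs_mul, abs_of_pos (by norm_num : (0:ℝ) < 2)]
      have := Complex.abs_im_le_norm (z - X n)
      rw [Complex.sub_im, Complex.ofReal_im, sub_zero] at this
      linarith
    refine h5.trans ?_
    have h6 : 2 * dist z (X n) ≤ 2 * (8 * K / (n * Pr)) := by linarith
    refine h6.trans ?_
    rw [← mul_div_assoc]
    apply div_le_div_of_nonneg_right _ (by positivity)
    linarith
  · intro E hE hEc h5 h6
    have h7 := diam_lower h4 hE hEc h5 h6
    refine le_trans ?_ h7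
    rw [div_le_iff₀ (by linarith)]
    have h8 : X n - dist z (X n) ≤ z.re := by
      have h9 := Complex.abs_re_le_norm (z - X n)
      rw [← dist_eq_norm, Complex.sub_re, Complex.ofReal_re] at h9
      have := neg_abs_le (z.re - X n)
      linarith
    have h9 : (z.re - rr n) * n ≥ (X n - dist z (X n) - rr n) * n := by
      apply mul_le_mul_of_nonneg_right _ (by linarith)
      linarith
    nlinarith

end Pool.Agent.W749.Chan
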